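import Pool.Agent.Run7.h229.SG.Iface

/-!
# Project SG, piece LIM: the union of a tower (helper673)
-/

set_option autoImplicit false

open Polynomial

namespace Run7.h673.SG

open Pool.Agent.Run7.h229.SG

/-- the composed maps of a chain of fields -/
noncomputable def chn (G : ℕ → Type) [∀ n, Field (G n)] (e : ∀ n, G n →+* G (n + 1)) (i j : ℕ) (h : i ≤ j) :
    G i →+* G j :=
  Nat.leRecOn (C := fun k => G i →+* G k) h (fun {k} g => (e k).comp g) (RingHom.id (G i))

lemma chn_self (G : ℕ → Type) [∀ n, Field (G n)] (e : ∀ n, G n →+* G (n + 1)) (i : ℕ) (x : G i) :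
    chn G e i i le_rfl x = x := by
  unfold chn
  rw [Nat.leRecOn_self]
  rfl

lemma chn_succ (G : ℕ → Type) [∀ n, Field (G n)] (e : ∀ n, G n →+* G (n + 1)) (i j : ℕ) (h : i ≤ j) (x : G i) :
    chn G e i (j + 1) (h.trans (Nat.le_succ j)) x = e j (chn G e i j h x) := by
  unfold chn
  rw [Nat.leRecOn_succ h]
  rfl

lemma chn_trans (G : ℕ → Type) [∀ n, Field (G n)] (e : ∀ n, G n →+* G (n + 1)) (i j k : ℕ) (h : i ≤ j) (h' : j ≤ k)
    (x : G i) : chn G e j k h' (chn G e i j h x) = chn G e i k (h.trans h') x := by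
  induction k, h' using Nat.le_induction with
  | base => rw [chn_self]
  | succ k hk ih => rw [chn_succ G e j k hk, ih, chn_succ G e i k (h.trans hk)]

/-- the union of a chain of fields -/
theorem colim (G : ℕ → Type) [∀ n, Field (G n)] (e : ∀ n, G n →+* G (n + 1)) :
    ∃ (W : Type) (_ : Field W) (o : ∀ n, G n →+* W), (∀ n x, o (n + 1) (e n x) = o n x) ∧ ∀ x, ∃ n y, o n y = x := by
  have hd : DirectedSystem G (fun i j h => chn G e i j h) :=
    ⟨fun i x => chn_self G e i x, fun k j i hij hjk x => chn_trans G e _ _ _ hij hjk x⟩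
  let F : Field (Ring.DirectLimit G (fun i j h => chn G e i j h)) := Field.DirectLimit.field G (chn G e)
  refine ⟨Ring.DirectLimit G (fun i j h => chn G e i j h), F,
    fun n => Ring.DirectLimit.of G (fun i j h => chn G e i j h) n, fun n x => ?_, fun x => ?_⟩
  · have h1 : e n x = chn G e n (n + 1) (Nat.le_succ n) x := by
      rw [chn_succ G e n n le_rfl, chn_self]
    rw [h1]
    exact Ring.DirectLimit.of_f (G := G) (f := fun i j h => chn G e i j h) (Nat.le_succ n) x
  · exact Ring.DirectLimit.exists_of x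

theorem lift_poly {A B : Type} [Field A] [Field B] (f : A →+* B) (Q : B[X]) (h : ∀ j, Q.coeff j ∈ f.fieldRange) :
    ∃ Q' : A[X], Q'.map f = Q := by
  have h1 : Q ∈ Polynomial.lifts f := by
    rw [Polynomial.lifts_iff_coeff_lifts]
    intro n
    obtain ⟨a, ha⟩ := RingHom.mem_fieldRange.1 (h n)
    exact ⟨a, ha⟩
  exact (Polynomial.mem_lifts Q).1 h1

/-- the tower -/
theorem tower_of (G : ℕ → Type) [∀ n, Field (G n)] [∀ n, IsAlgClosed (G n)] (e : ∀ n, G n →+* G (n + 1))
    (mu : ∀ n, AddSubgroup (G (n + 1))) (h : ∀ n, Step (G n) (G (n + 1)) (e n) (mu n)) :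
    ∃ (W : Type) (_ : Field W), Nonempty (Tower W) := by
  obtain ⟨W, _, o, ho, hex⟩ := colim G e
  have hinj : ∀ n, Function.Injective (o n) := fun n => (o n).injective
  have hlift : ∀ (n : ℕ) (Q D : W[X]), Q.Monic → Q.Separable → (∀ j, Q.coeff j ∈ (o n).fieldRange) →
      (∀ j, D.coeff j ∈ (mu n).map (o (n + 1)).toAddMonoidHom) → D.degree < Q.degree →
      ∃ (Q' : (G n)[X]) (D' : (G (n + 1))[X]), Q'.Monic ∧ Q'.Separable ∧ (∀ j, D'.coeff j ∈ mu n) ∧
        D'.degree < Q'.degree ∧ Q'.map (o n) = Q ∧ (Q'.map (e n) + D').map (o (n + 1)) = Q + D := by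
    intro n Q D hQm hQs hQ hD hdeg
    obtain ⟨Q', rfl⟩ := lift_poly (o n) Q hQ
    obtain ⟨D', rfl⟩ := lift_poly (o (n + 1)) D fun j => by
      obtain ⟨a, _, ha⟩ := hD j
      exact RingHom.mem_fieldRange.2 ⟨a, ha⟩
    refine ⟨Q', D', ?_, ?_, fun j => ?_, ?_, rfl, ?_⟩
    · exact (Polynomial.monic_map_iff (f := o n)).1 hQm
    · exact (Polynomial.separable_map (o n)).1 hQs
    · obtain ⟨a, ha, hb⟩ := hD j
      rw [Polynomial.coeff_map] at hb
      have h1 : a = D'.coeff j := hinj (n + 1) hb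
      rw [← h1]
      exact ha
    · rw [Polynomial.degree_map, Polynomial.degree_map] at hdeg
      exact hdeg
    · rw [Polynomial.map_add, Polynomial.map_map]
      congr 1
      congr 1
      ext x
      exact ho n x
  refine ⟨W, inferInstance, ⟨?_⟩⟩
  exact
    { K := fun n => (o n).fieldRange
      mu := fun n => (mu n).map (o (n + 1)).toAddMonoidHom
      mono := by
        intro n x hx
        obtain ⟨a, rfl⟩ := RingHom.mem_fieldRange.1 hx
        exact RingHom.mem_fieldRange.2 ⟨e n a, ho n a⟩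
      exh := by
        intro x
        obtain ⟨n, y, hy⟩ := hex x
        exact ⟨n, RingHom.mem_fieldRange.2 ⟨y, hy⟩⟩
      cub := by
        intro n t z ht hz
        obtain ⟨a, rfl⟩ := RingHom.mem_fieldRange.1 ht
        have h0 : (X ^ 3 + X ^ 2 + C a : (G n)[X]) ≠ 0 := by
          intro h1
          have h2 := congrArg (fun P => P.coeff 3) h1
          simp [coeff_X_pow] at h2
        have h3 : ((X ^ 3 + X ^ 2 + C a : (G n)[X]).map (o n)) ≠ 0 := (Polynomial.map_ne_zero_iff (hinj n)).2 h0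
        have h4 : z ∈ ((X ^ 3 + X ^ 2 + C a : (G n)[X]).map (o n)).roots := by
          rw [Polynomial.mem_roots h3, Polynomial.IsRoot.def]
          simpa using hz
        rw [(IsAlgClosed.splits (X ^ 3 + X ^ 2 + C a : (G n)[X])).roots_map (o n)] at h4
        obtain ⟨b, _, hb⟩ := Multiset.mem_map.1 h4
        exact RingHom.mem_fieldRange.2 ⟨b, hb⟩
      mu_le := by
        rintro n x ⟨a, _, rfl⟩
        exact RingHom.mem_fieldRange.2 ⟨a, rfl⟩
      smul := by
        rintro n a x ha ⟨y, hy, rfl⟩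
        obtain ⟨b, rfl⟩ := RingHom.mem_fieldRange.1 ha
        refine ⟨e n b * y, (h n).smul b y hy, ?_⟩
        show o (n + 1) (e n b * y) = o n b * o (n + 1) y
        rw [map_mul, ho]
      mul := by
        rintro n x x' ⟨y, hy, rfl⟩ ⟨y', hy', rfl⟩
        exact ⟨y * y', (h n).mul y y' hy hy', map_mul (o (n + 1)) y y'⟩
      disj := by
        rintro n x hx ⟨y, hy, hyx⟩
        obtain ⟨b, rfl⟩ := RingHom.mem_fieldRange.1 hx
        have h1 : y = e n b := by
          apply hinj (n + 1)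
          rw [ho]
          exact hyx
        rw [(h n).disj b (by rw [← h1]; exact hy), map_zero]
      inv := by
        rintro n x ⟨y, hy, rfl⟩
        obtain ⟨y', hy', h1⟩ := (h n).inv y hy
        refine ⟨o (n + 1) y', ⟨y', hy', rfl⟩, ?_⟩
        show (1 + o (n + 1) y) * (1 + o (n + 1) y') = 1
        rw [← map_one (o (n + 1)), ← map_add, ← map_add, ← map_mul, h1]
      sep := by
        intro n Q D hQm hQs hQ hD hdeg
        obtain ⟨Q', D', a1, a2, a3, a4, -, a6⟩ := hlift n Q D hQm hQs hQ hD hdeg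
        rw [← a6, Polynomial.separable_map]
        exact (h n).sep Q' D' a1 a2 a3 a4
      silver := by
        intro n Q D hQm hQs hQ hD hdeg a ha hroot
        obtain ⟨Q', D', a1, a2, a3, a4, a5, a6⟩ := hlift n Q D hQm hQs hQ hD hdeg
        obtain ⟨b, rfl⟩ := RingHom.mem_fieldRange.1 ha
        have hb : Q'.IsRoot b := by
          rw [← a5, Polynomial.IsRoot.def, Polynomial.eval_map, Polynomial.eval₂_hom] at hroot
          exact (map_eq_zero_iff (o n) (hinj n)).1 hroot
        obtain ⟨x, hx, h1⟩ := (h n).silver Q' D' a1 a2 a3 a4 b hb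
        refine ⟨o (n + 1) x, ⟨x, hx, rfl⟩, ?_⟩
        rw [← a6, ← ho n b, ← map_add, Polynomial.IsRoot.def, Polynomial.eval_map, Polynomial.eval₂_hom]
        rw [Polynomial.IsRoot.def] at h1
        rw [h1, map_zero]
      ngold := by
        intro n
        obtain ⟨t, ht, h1⟩ := (h n).ngold
        refine ⟨o (n + 1) t, ⟨t, ht, rfl⟩, ?_⟩
        rintro x ⟨y, hy, rfl⟩ h2
        apply h1 y hy
        apply hinj (n + 1)
        rw [map_zero, ← h2]
        show o (n + 1) ((-1 + y) ^ 3 + (-1 + y) ^ 2 + t) = (-1 + o (n + 1) y) ^ 3 + (-1 + o (n + 1) y) ^ 2 + o (n + 1) t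
        simp only [map_add, map_pow, map_neg, map_one] }

/-- algebraically closed fields -/
structure ACF where
  K : Type
  [fld : Field K]
  [alg : IsAlgClosed K]

attribute [instance] ACF.fld ACF.alg

/-- the next field -/
structure Nx (A : ACF) where
  B : ACF
  i : A.K →+* B.K
  mu : AddSubgroup B.K
  st : Step A.K B.K i mu

theorem nx_exists (h : S_STP) (A : ACF) : Nonempty (Nx A) := by
  obtain ⟨L, f, g, i, mu, hs⟩ := h A.K
  exact ⟨⟨@ACF.mk L f g, i, mu, hs⟩⟩

/-- the next field -/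
noncomputable def nx (h : S_STP) (A : ACF) : Nx A := Classical.choice (nx_exists h A)

/-- the chain -/
noncomputable def sq (h : S_STP) : ℕ → ACF
  | 0 => ⟨AlgebraicClosure ℚ⟩
  | n + 1 => (nx h (sq h n)).B

theorem t_LIM : S_STP → S_LIM := by
  intro h
  exact tower_of (fun n => (sq h n).K) (fun n => (nx h (sq h n)).i) (fun n => (nx h (sq h n)).mu)
    (fun n => (nx h (sq h n)).st)

end Run7.h673.SG
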