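import Pool.Agent.Run7.h229.SG.Iface

/-!
# Project SG, piece STP: one step of the tower (helper673)
-/

set_option autoImplicit false

open Polynomial

namespace Run7.h673.SG

open Pool.Agent.Run7.h229.SG

theorem ser_inj (K : Type) [Field K] : Function.Injective (ser K) := HahnSeries.ofPowerSeries_injective

theorem t_STP : S_ZOR → S_HEN → S_SPL → S_STP := by
  intro hZ hH hS K _ _
  obtain ⟨F, hF1, hF2, hF3, hF4⟩ := hZ K
  obtain ⟨L, _, _, ι, hι⟩ : ∃ (L : Type) (_ : Field L) (_ : IsAlgClosed L) (ι : LaurentSeries K →+* L),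
      Function.Injective ι :=
    ⟨AlgebraicClosure (LaurentSeries K), inferInstance, inferInstance, algebraMap _ _,
      (algebraMap (LaurentSeries K) (AlgebraicClosure (LaurentSeries K))).injective⟩
  obtain ⟨j, hj⟩ : ∃ j : PowerSeries K →+* L, j = ι.comp (ser K) := ⟨_, rfl⟩
  have hji : Function.Injective j := by
    rw [hj]
    exact hι.comp (ser_inj K)
  obtain ⟨cst, hcst⟩ : ∃ c : K →+* PowerSeries K, c = PowerSeries.C (R := K) := ⟨_, rfl⟩
  obtain ⟨cc, hcc⟩ : ∃ c : PowerSeries K →+* K, c = PowerSeries.constantCoeff (R := K) := ⟨_, rfl⟩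
  have hc1 : ∀ a, cc (cst a) = a := fun a => by rw [hcc, hcst]; exact PowerSeries.constantCoeff_C a
  have hc2 : cc PowerSeries.X = 0 := by rw [hcc]; exact PowerSeries.constantCoeff_X
  have hcF : ∀ a, ser K (cst a) ∈ F := fun a => by rw [hcst]; exact hF1 a
  let M : AddSubgroup (PowerSeries K) :=
    { carrier := {f | cc f = 0 ∧ ser K f ∈ F}
      zero_mem' := ⟨map_zero _, by rw [map_zero]; exact F.zero_mem⟩
      add_mem' := by
        rintro f g ⟨h1, h2⟩ ⟨h3, h4⟩
        exact ⟨by rw [map_add, h1, h3, add_zero], by rw [map_add]; exact F.add_mem h2 h4⟩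
      neg_mem' := by
        rintro f ⟨h1, h2⟩
        exact ⟨by rw [map_neg, h1, neg_zero], by rw [map_neg]; exact F.neg_mem h2⟩ }
  have hMd : ∀ f, f ∈ M ↔ cc f = 0 ∧ ser K f ∈ F := fun f => Iff.rfl
  -- lifting of the polynomials
  have hlift : ∀ (Q : K[X]) (D : L[X]), Q.Monic → Q.Separable → (∀ n, D.coeff n ∈ M.map j.toAddMonoidHom) →
      D.degree < Q.degree → ∃ P : (PowerSeries K)[X], P.Monic ∧ P.map cc = Q ∧
        (∀ n, ser K (P.coeff n) ∈ F) ∧ P.map j = Q.map (j.comp cst) + D := by
    intro Q D hQm hQs hD hdeg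
    have h1 : D ∈ Polynomial.lifts j := by
      rw [Polynomial.lifts_iff_coeff_lifts]
      intro n
      obtain ⟨a, _, ha⟩ := hD n
      exact ⟨a, ha⟩
    obtain ⟨D', rfl⟩ := (Polynomial.mem_lifts D).1 h1
    have h2 : ∀ n, D'.coeff n ∈ M := by
      intro n
      obtain ⟨a, ha, hb⟩ := hD n
      rw [Polynomial.coeff_map] at hb
      have h3 : a = D'.coeff n := hji hb
      rw [← h3]
      exact ha
    have h4 : D'.degree < (Q.map cst).degree := by
      rw [Polynomial.degree_map_eq_of_injective hji] at hdeg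
      rw [Polynomial.degree_map_eq_of_injective (by
        intro x y hxy
        have := congrArg cc hxy
        rwa [hc1, hc1] at this)]
      exact hdeg
    have h5 : D'.map cc = 0 := by
      ext n
      rw [Polynomial.coeff_map, Polynomial.coeff_zero]
      exact (h2 n).1
    have h6 : cc.comp cst = RingHom.id K := RingHom.ext hc1
    refine ⟨Q.map cst + D', ?_, ?_, fun n => ?_, ?_⟩
    · exact (hQm.map cst).add_of_left h4
    · rw [Polynomial.map_add, h5, add_zero, Polynomial.map_map, h6, Polynomial.map_id]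
    · rw [Polynomial.coeff_add, Polynomial.coeff_map, map_add]
      exact F.add_mem (hcF _) (h2 n).2
    · rw [Polynomial.map_add, Polynomial.map_map]
  refine ⟨L, inferInstance, inferInstance, j.comp cst, M.map j.toAddMonoidHom, ?_⟩
  exact
    { smul := by
        rintro a x ⟨f, ⟨h1, h2⟩, rfl⟩
        refine ⟨cst a * f, ⟨?_, ?_⟩, ?_⟩
        · rw [map_mul, h1, mul_zero]
        · rw [map_mul]
          exact F.mul_mem (hcF a) h2
        · exact map_mul j _ _
      mul := by
        rintro x y ⟨f, ⟨h1, h2⟩, rfl⟩ ⟨g, ⟨h3, h4⟩, rfl⟩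
        refine ⟨f * g, ⟨?_, ?_⟩, ?_⟩
        · rw [map_mul, h1, zero_mul]
        · rw [map_mul]
          exact F.mul_mem h2 h4
        · exact map_mul j _ _
      disj := by
        rintro a ⟨f, ⟨h1, _⟩, h3⟩
        have h4 : f = cst a := hji h3
        rw [h4, hc1] at h1
        exact h1
      inv := by
        rintro x ⟨f, ⟨h1, h2⟩, rfl⟩
        have h3 : (1 + f) * (1 + f)⁻¹ = 1 := PowerSeries.mul_inv_cancel _ (by
          rw [← hcc, map_add, map_one, h1, add_zero]
          exact one_ne_zero)
        have h4 : cc (1 + f)⁻¹ = 1 := by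
          have h5 := congrArg cc h3
          rwa [map_mul, map_add, map_one, h1, add_zero, one_mul] at h5
        have h6 : ser K (1 + f)⁻¹ ∈ F := by
          have h7 := congrArg (ser K) h3
          rw [map_mul, map_one] at h7
          have h8 : ser K (1 + f)⁻¹ = (ser K (1 + f))⁻¹ := (inv_eq_of_mul_eq_one_right h7).symm
          rw [h8]
          apply F.inv_mem
          rw [map_add, map_one]
          exact F.add_mem F.one_mem h2
        refine ⟨j ((1 + f)⁻¹ - 1), ⟨(1 + f)⁻¹ - 1, ⟨?_, ?_⟩, rfl⟩, ?_⟩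
        · rw [map_sub, map_one, h4, sub_self]
        · rw [map_sub, map_one]
          exact F.sub_mem h6 F.one_mem
        · show (1 + j f) * (1 + j ((1 + f)⁻¹ - 1)) = 1
          rw [map_sub, map_one, add_sub_cancel, ← map_one j, ← map_add, ← map_mul, h3]
      sep := by
        intro Q D hQm hQs hD hdeg
        obtain ⟨P, a1, a2, a3, a4⟩ := hlift Q D hQm hQs hD hdeg
        obtain ⟨s, hs1, hs2⟩ := hS K P a1 (by rw [← hcc, a2]; exact hQs)
        rw [← a4, hs1, Polynomial.map_prod]
        simp only [Polynomial.map_sub, Polynomial.map_X, Polynomial.map_C]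
        rw [Polynomial.separable_prod_X_sub_C_iff']
        intro x _ y _ hxy
        exact hji hxy
      silver := by
        intro Q D hQm hQs hD hdeg a ha
        obtain ⟨P, a1, a2, a3, a4⟩ := hlift Q D hQm hQs hD hdeg
        obtain ⟨r, hr1, hr2⟩ := hH K P a1 a (by rw [← hcc, a2]; exact ha) (by
          rw [← hcc, a2]
          exact hQs.eval₂_derivative_ne_zero (RingHom.id K) (by rw [Polynomial.eval₂_id]; exact ha))
        rw [← hcc] at hr2
        have hrF := hF4 P a1 (by rw [← hcc, a2]; exact hQs) a3 r hr1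
        refine ⟨j (r - cst a), ⟨r - cst a, ⟨?_, ?_⟩, rfl⟩, ?_⟩
        · rw [map_sub, hr2, hc1, sub_self]
        · rw [map_sub]
          exact F.sub_mem hrF (hcF a)
        · have h1 : (j.comp cst) a + j (r - cst a) = j r := by
            show j (cst a) + j (r - cst a) = j r
            rw [← map_add, add_sub_cancel]
          rw [h1, ← a4, Polynomial.IsRoot.def, Polynomial.eval_map, Polynomial.eval₂_hom]
          rw [Polynomial.IsRoot.def] at hr1
          rw [hr1, map_zero]
      ngold := by
        refine ⟨j PowerSeries.X, ⟨PowerSeries.X, ⟨hc2, hF2⟩, rfl⟩, ?_⟩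
        rintro x ⟨f, ⟨_, h2⟩, rfl⟩ h3
        apply hF3 (ser K (-1 + f)) (by
          rw [map_add, map_neg, map_one]
          exact F.add_mem (F.neg_mem F.one_mem) h2)
        apply hι
        rw [map_zero, ← h3]
        show ι (ser K (-1 + f) ^ 3 + ser K (-1 + f) ^ 2 + ser K PowerSeries.X) =
          (-1 + j f) ^ 3 + (-1 + j f) ^ 2 + j PowerSeries.X
        rw [hj]
        simp only [map_add, map_pow, map_neg, map_one, RingHom.comp_apply] }

end Run7.h673.SG
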